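import Pool.Agent.H456R3.Green
import Pool.Agent.H456R3.Gfun

set_option autoImplicit false

open MeasureTheory Set Filter Topology
open scoped ContDiff Real
open Pool.Agent.H456R3 (Plane ev lap cz LF)

namespace Pool.Agent.Results.MP_ad2fa1_an.NonradialAllN

/-- `f(t) = e^{2t} p(e^t)` -/
noncomputable def fOf (p : ℝ → ℝ) (t : ℝ) : ℝ := Real.exp (2 * t) * p (Real.exp t)

/-- `g(u) = q(e^u)` -/
noncomputable def gOf (q : ℝ → ℝ) (u : ℝ) : ℝ := q (Real.exp u)

/-- `M_0`, the infimum of the `M > 0` with `∫_0^∞ f(t) g(-Mt) dt < ∞` -/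
noncomputable def M0 (f g : ℝ → ℝ) : ℝ :=
  sInf {M : ℝ | 0 < M ∧ IntegrableOn (fun t => f t * g (-M * t)) (Ioi 0)}

/-- `G_0(u) = ∫_{-∞}^u g` -/
noncomputable def G0 (g : ℝ → ℝ) (u : ℝ) : ℝ := ∫ v in Iic u, g v

/-- the hypotheses (H1)-(H8) -/
structure Hyp (f g : ℝ → ℝ) : Prop where
  h1_f : ContDiff ℝ 1 f
  h1_g : ContDiff ℝ 1 g
  h1_int : IntegrableOn (fun t => |t * f t|) (Iio 0)
  h1_bdd : ∃ C : ℝ, ∀ u, |g u| + |deriv g u| ≤ C
  h2_pos : ∀ t, 0 < f t
  h2_lim : Tendsto f atTop atTop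
  h2_zero : g 0 = 0
  h2_gpos : ∀ u < 0, 0 < g u
  h3 : ∀ t, 0 ≤ deriv f t
  h4 : ∃ M > 0, (∀ u < -M, 0 < deriv g u) ∧ IntegrableOn (fun t => f t * g (-M * t)) (Ioi 0)
  h5_inf : ¬ IntegrableOn (fun t => f t * g (-(M0 f g) * t)) (Ioi 0)
  h5_ratio : ∀ c > 0, ∃ κ > 0, ∀ t > 0, κ ≤ f (t - c) / f t
  h6_int : ∀ u, IntegrableOn g (Iic u)
  h6_h7 : ∃ f₁ g₁ : ℝ, Tendsto (fun t => deriv f t / f t) atTop (𝓝 f₁) ∧
    Tendsto (fun u => G0 g u / g u) atBot (𝓝 g₁) ∧
    (∀ t, f₁ ≤ deriv f t / f t) ∧ ∀ u < 0, g₁ ≤ G0 g u / g u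
  h8 : ∃ δ > 0, ∀ u ∈ Icc (-δ) 0, deriv g u ≤ 0

/-- `u` is a negative solution of `Δu + p(|x|) q(e^u) = 4πN δ` in `ℝ²`: it is locally integrable,
smooth and negative off the origin, and satisfies the equation in the sense of distributions. -/
structure IsNegativeSolution (N : ℝ) (p q : ℝ → ℝ) (u : Plane → ℝ) : Prop where
  locInt : LocallyIntegrable u volume
  smooth : ContDiffOn ℝ ∞ u {0}ᶜ
  neg : ∀ x : Plane, x ≠ 0 → u x < 0
  locInt_term : LocallyIntegrable (fun x : Plane => p ‖x‖ * q (Real.exp (u x))) volume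
  eqn : ∀ φ : Plane → ℝ, ContDiff ℝ ∞ φ → HasCompactSupport φ →
    (∫ x, u x * lap φ x) + ∫ x, p ‖x‖ * q (Real.exp (u x)) * φ x = 4 * π * N * φ 0

/-- `u(x)` depends only on `|x|` (for `x ≠ 0`) -/
def IsRadial (u : Plane → ℝ) : Prop := ∀ x y : Plane, x ≠ 0 → y ≠ 0 → ‖x‖ = ‖y‖ → u x = u y

/-! ### the hypotheses for the example -/

theorem fOf_one : fOf (fun _ => 1) = fun t => Real.exp (2 * t) := by
  funext t; simp [fOf]

theorem gOf_eq : gOf (fun s => Pool.Agent.H456R3.gg (Real.log s)) = Pool.Agent.H456R3.gg := by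
  funext u; simp [gOf]

theorem pi_lt : 3 * π / 4 < 3 := by
  have := Real.pi_lt_four
  linarith

theorem deriv_f : deriv (fun t : ℝ => Real.exp (2 * t)) = fun t => 2 * Real.exp (2 * t) := by
  funext t
  have h1 : HasDerivAt (fun t : ℝ => 2 * t) 2 t := by
    simpa using (hasDerivAt_id t).const_mul (2:ℝ)
  have := h1.exp.deriv
  rw [this]; ring

theorem intOn_iff {M : ℝ} (hM : 0 < M) :
    IntegrableOn (fun t => Real.exp (2 * t) * Pool.Agent.H456R3.gg (-M * t)) (Ioi 0) ↔ 2 < M := by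
  set T : ℝ := 3 / M with hT
  have hTpos : 0 < T := by positivity
  have hMT : M * T = 3 := by rw [hT]; field_simp
  have htail : ∀ t ∈ Ioi T, Real.exp (2 * t) * Pool.Agent.H456R3.gg (-M * t) =
      Real.exp (-(M - 2) * t) := by
    intro t ht
    have ht' : T < t := ht
    have h1 : -M * t ≤ -(3 * π / 4) := by
      have : M * T < M * t := mul_lt_mul_of_pos_left ht' hM
      have := pi_lt
      nlinarith
    rw [Pool.Agent.H456R3.gg_of_le h1, ← Real.exp_add]
    congr 1; ring
  constructor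
  · intro h
    by_contra hlt
    push Not at hlt
    have h1 : IntegrableOn (fun _ : ℝ => (1:ℝ)) (Ioi T) := by
      have h2 : IntegrableOn (fun t => Real.exp (2 * t) * Pool.Agent.H456R3.gg (-M * t)) (Ioi T) :=
        h.mono_set (Ioi_subset_Ioi hTpos.le)
      refine Integrable.mono' h2 (by fun_prop) ?_
      filter_upwards [ae_restrict_mem measurableSet_Ioi] with t ht
      rw [htail t ht, norm_one]
      apply Real.one_le_exp
      have ht' : T < t := ht
      nlinarith
    have h3 := (integrableOn_const_iff (μ := (volume : Measure ℝ)) (s := Ioi T) (C := (1:ℝ))).mp h1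
    rcases h3 with h3 | h3
    · norm_num at h3
    · simp at h3
  · intro h
    have h1 : IntegrableOn (fun t => Real.exp (2 * t) * Pool.Agent.H456R3.gg (-M * t)) (Icc 0 T) := by
      apply Continuous.integrableOn_Icc
      exact (by fun_prop : Continuous fun t : ℝ => Real.exp (2 * t)).mul
        (Pool.Agent.H456R3.contDiff_gg.continuous.comp (by fun_prop))
    have h2 : IntegrableOn (fun t => Real.exp (2 * t) * Pool.Agent.H456R3.gg (-M * t)) (Ioi T) := by
      have h3 : IntegrableOn (fun t : ℝ => Real.exp (-(M - 2) * t)) (Ioi T) :=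
        exp_neg_integrableOn_Ioi T (by linarith)
      exact h3.congr_fun (fun t ht => (htail t ht).symm) measurableSet_Ioi
    have h4 := h1.union h2
    apply h4.mono_set
    intro t ht
    have ht' : 0 < t := ht
    rcases le_or_gt t T with h5 | h5
    · exact Or.inl ⟨ht'.le, h5⟩
    · exact Or.inr h5

theorem M0_eq : M0 (fun t => Real.exp (2 * t)) Pool.Agent.H456R3.gg = 2 := by
  unfold M0
  have : {M : ℝ | 0 < M ∧ IntegrableOn (fun t => Real.exp (2 * t) *
      Pool.Agent.H456R3.gg (-M * t)) (Ioi 0)} = Ioi 2 := by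
    ext M
    simp only [mem_ofPred_eq, mem_Ioi]
    constructor
    · rintro ⟨h1, h2⟩
      exact (intOn_iff h1).mp h2
    · intro h
      exact ⟨by linarith, (intOn_iff (by linarith)).mpr h⟩
  rw [this, csInf_Ioi]

theorem hyp : Hyp (fun t => Real.exp (2 * t)) Pool.Agent.H456R3.gg where
  h1_f := by fun_prop
  h1_g := Pool.Agent.H456R3.contDiff_gg
  h1_int := by
    have h : IntegrableOn Real.exp (Iio 0) := (integrableOn_exp_Iic 0).mono_set Iio_subset_Iic_self
    refine Integrable.mono' h (by fun_prop) ?_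
    filter_upwards [ae_restrict_mem measurableSet_Iio] with t ht
    have ht' : t < 0 := ht
    rw [Real.norm_eq_abs, abs_abs, abs_mul, abs_of_neg ht', abs_of_pos (Real.exp_pos _)]
    have h1 : -t ≤ Real.exp (-t) := by linarith [Real.add_one_le_exp (-t)]
    calc -t * Real.exp (2 * t) ≤ Real.exp (-t) * Real.exp (2 * t) := by gcongr
      _ = Real.exp t := by rw [← Real.exp_add]; congr 1; ring
  h1_bdd := ⟨4, fun u => by
    rw [Pool.Agent.H456R3.deriv_gg]
    linarith [Pool.Agent.H456R3.gg_abs_le u, Pool.Agent.H456R3.gg'_abs_le u]⟩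
  h2_pos := fun t => Real.exp_pos _
  h2_lim := Real.tendsto_exp_atTop.comp (tendsto_id.const_mul_atTop (by norm_num))
  h2_zero := Pool.Agent.H456R3.gg_zero
  h2_gpos := fun u hu => Pool.Agent.H456R3.gg_pos hu
  h3 := fun t => by rw [deriv_f]; positivity
  h4 := by
    refine ⟨3, by norm_num, fun u hu => ?_, (intOn_iff (by norm_num)).mpr (by norm_num)⟩
    rw [Pool.Agent.H456R3.deriv_gg, Pool.Agent.H456R3.gg'_of_le (by linarith [pi_lt])]
    exact Real.exp_pos u
  h5_inf := by
    rw [M0_eq, intOn_iff (by norm_num)]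
    exact lt_irrefl _
  h5_ratio := fun c hc => ⟨Real.exp (-(2 * c)), Real.exp_pos _, fun t _ => by
    rw [← Real.exp_sub]
    apply le_of_eq
    congr 1; ring⟩
  h6_int := Pool.Agent.H456R3.integrableOn_gg
  h6_h7 := by
    refine ⟨2, 1, ?_, ?_, ?_, ?_⟩
    · apply Tendsto.congr (f₁ := fun _ => 2) _ tendsto_const_nhds
      intro t
      rw [deriv_f]
      have := (Real.exp_pos (2 * t)).ne'
      field_simp
    · apply Tendsto.congr' (f₁ := fun _ => 1) _ tendsto_const_nhds
      filter_upwards [eventually_le_atBot (-(3 * π / 4))] with u hu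
      unfold G0
      rw [Pool.Agent.H456R3.G0_of_le hu, Pool.Agent.H456R3.gg_of_le hu,
        div_self (Real.exp_pos u).ne']
    · intro t
      rw [deriv_f]
      have := (Real.exp_pos (2 * t)).ne'
      apply le_of_eq
      field_simp
    · intro u hu
      rw [le_div_iff₀ (Pool.Agent.H456R3.gg_pos hu), one_mul]
      exact Pool.Agent.H456R3.G0_ge hu
  h8 := ⟨π / 2, by positivity, fun u hu => by
    rw [Pool.Agent.H456R3.deriv_gg]
    exact Pool.Agent.H456R3.gg'_nonpos hu.1 hu.2⟩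

/-! ### the solution -/

/-- the scale -/
noncomputable def lam (N : ℕ) : ℝ := 1 / (100 * ((N : ℝ) + 1))

theorem lam_pos (N : ℕ) : 0 < lam N := by unfold lam; positivity

noncomputable def hf (N : ℕ) (z : ℂ) : ℂ := ((lam N : ℂ) * z) ^ (N + 1) + 1

noncomputable def hf' (N : ℕ) (z : ℂ) : ℂ := ((N : ℂ) + 1) * (lam N : ℂ) * ((lam N : ℂ) * z) ^ N

noncomputable def hf'' (N : ℕ) (z : ℂ) : ℂ :=
  ((N : ℂ) + 1) * (lam N : ℂ) * ((N : ℂ) * ((lam N : ℂ) * z) ^ (N - 1) * (lam N : ℂ))

theorem hasDerivAt_lin (N : ℕ) (z : ℂ) : HasDerivAt (fun z : ℂ => (lam N : ℂ) * z) (lam N : ℂ) z := by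
  simpa using (hasDerivAt_id z).const_mul (lam N : ℂ)

theorem hasDerivAt_hf (N : ℕ) (z : ℂ) : HasDerivAt (hf N) (hf' N z) z := by
  have h := ((hasDerivAt_lin N z).pow (N + 1)).add_const 1
  refine h.congr_deriv ?_
  unfold hf'
  simp only [Nat.add_sub_cancel]
  push_cast
  ring

theorem hasDerivAt_hf' (N : ℕ) (z : ℂ) : HasDerivAt (hf' N) (hf'' N z) z :=
  ((hasDerivAt_lin N z).pow N).const_mul _

theorem contDiff_hf (N : ℕ) : ContDiff ℝ ∞ (hf N) := by
  unfold hf
  fun_prop

/-- `8 |h'|^2 / (1 + |h|^2)^2` -/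
noncomputable def dens (N : ℕ) (x : Plane) : ℝ :=
  8 * Complex.normSq (hf' N (cz x)) / (1 + Complex.normSq (hf N (cz x))) ^ 2

noncomputable def kap (N : ℕ) : ℝ := Real.log (8 * ((N : ℝ) + 1) ^ 2 * lam N ^ (2 * N + 2))

/-- the solution -/
noncomputable def sol (N : ℕ) (x : Plane) : ℝ :=
  kap N + 2 * (N : ℝ) * Real.log ‖x‖ - 2 * LF (hf N) x

theorem normSq_hf' (N : ℕ) (x : Plane) : Complex.normSq (hf' N (cz x)) =
    ((N : ℝ) + 1) ^ 2 * lam N ^ (2 * N + 2) * ‖x‖ ^ (2 * N) := by
  unfold hf'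
  rw [Complex.normSq_eq_norm_sq, norm_mul, norm_mul, norm_pow, norm_mul,
    Pool.Agent.H456R3.norm_cz, Complex.norm_real, Real.norm_eq_abs, abs_of_pos (lam_pos N)]
  have : ‖((N : ℂ) + 1)‖ = (N : ℝ) + 1 := by
    have h1 : ((N : ℂ) + 1) = (((N : ℝ) + 1 : ℝ) : ℂ) := by push_cast; rfl
    rw [h1, Complex.norm_real, Real.norm_eq_abs, abs_of_pos (by positivity)]
  rw [this]
  ring

theorem exp_sol (N : ℕ) {x : Plane} (hx : x ≠ 0) : Real.exp (sol N x) = dens N x := by
  have hx0 : 0 < ‖x‖ := norm_pos_iff.mpr hx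
  have hl := lam_pos N
  have hp := Pool.Agent.H456R3.one_add_pos (hf N (cz x))
  have e : sol N x = Real.log (dens N x) := by
    unfold sol dens kap LF
    rw [normSq_hf', Real.log_div (by positivity) (by positivity)]
    have e1 : 8 * (((N : ℝ) + 1) ^ 2 * lam N ^ (2 * N + 2) * ‖x‖ ^ (2 * N)) =
        (8 * ((N : ℝ) + 1) ^ 2 * lam N ^ (2 * N + 2)) * ‖x‖ ^ (2 * N) := by ring
    have e2 : Real.log ((8 * ((N : ℝ) + 1) ^ 2 * lam N ^ (2 * N + 2)) * ‖x‖ ^ (2 * N)) =
        Real.log (8 * ((N : ℝ) + 1) ^ 2 * lam N ^ (2 * N + 2)) + 2 * (N : ℝ) * Real.log ‖x‖ := by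
      rw [Real.log_mul (by positivity) (by positivity), Real.log_pow ‖x‖]
      push_cast
      ring
    rw [e1, e2, Real.log_pow]
    push_cast
    ring
  rw [e, Real.exp_log]
  unfold dens
  rw [normSq_hf']
  positivity

theorem continuous_dens (N : ℕ) : Continuous (dens N) := by
  unfold dens
  have h1 := Pool.Agent.H456R3.contDiff_cz.continuous
  apply Continuous.div
  · apply Continuous.mul continuous_const
    apply Complex.continuous_normSq.comp
    unfold hf'
    fun_prop
  · apply Continuous.pow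
    apply Continuous.add continuous_const
    apply Complex.continuous_normSq.comp
    exact (contDiff_hf N).continuous.comp h1
  · intro x
    have := Pool.Agent.H456R3.one_add_pos (hf N (cz x))
    positivity

/-- the solution is very negative -/
theorem dens_le (N : ℕ) (x : Plane) : dens N x ≤ 72 / 10000 := by
  have hl := lam_pos N
  set w : ℂ := ((lam N : ℂ) * cz x) ^ (N + 1) with hw
  have hnw : ‖w‖ = (lam N * ‖x‖) ^ (N + 1) := by
    rw [hw, norm_pow, norm_mul, Pool.Agent.H456R3.norm_cz, Complex.norm_real, Real.norm_eq_abs,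
      abs_of_pos hl]
  set s : ℝ := lam N * ‖x‖ with hs
  have hs0 : 0 ≤ s := by positivity
  -- lower bound of the denominator
  have h1 : (1 + ‖w‖ ^ 2) / 3 ≤ 1 + Complex.normSq (hf N (cz x)) := by
    have h2 : hf N (cz x) = w + 1 := rfl
    rw [h2, Complex.normSq_eq_norm_sq]
    have h3 : |‖w‖ - 1| ≤ ‖w + 1‖ := by
      have := abs_norm_sub_norm_le w (-1)
      simpa using this
    have h4 : (‖w‖ - 1) ^ 2 ≤ ‖w + 1‖ ^ 2 := by
      rw [← sq_abs]
      gcongr
    nlinarith [sq_nonneg (‖w‖ * 2 - 3)]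
  have h5 : dens N x ≤ 8 * Complex.normSq (hf' N (cz x)) / ((1 + ‖w‖ ^ 2) / 3) ^ 2 := by
    unfold dens
    have := Complex.normSq_nonneg (hf' N (cz x))
    gcongr
  have h6 : Complex.normSq (hf' N (cz x)) = (((N : ℝ) + 1) * lam N) ^ 2 * s ^ (2 * N) := by
    rw [normSq_hf', hs]; ring
  have h7 : ((N : ℝ) + 1) * lam N = 1 / 100 := by
    unfold lam
    have : (N : ℝ) + 1 ≠ 0 := by positivity
    field_simp
  have h8 : s ^ (2 * N) ≤ (1 + ‖w‖ ^ 2) ^ 2 := by
    rw [hnw]
    rcases le_total s 1 with h | h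
    · have : s ^ (2 * N) ≤ 1 := pow_le_one₀ hs0 h
      nlinarith [sq_nonneg ((s ^ (N + 1)) ^ 2), sq_nonneg (s ^ (N + 1))]
    · have h9 : s ^ (2 * N) ≤ s ^ (2 * N + 2) := pow_le_pow_right₀ h (by omega)
      have h10 : s ^ (2 * N + 2) = (s ^ (N + 1)) ^ 2 := by ring
      rw [h10] at h9
      nlinarith [sq_nonneg ((s ^ (N + 1)) ^ 2), sq_nonneg (s ^ (N + 1))]
  refine h5.trans ?_
  rw [h6, h7, div_le_iff₀ (by positivity)]
  nlinarith

theorem sol_le (N : ℕ) {x : Plane} (hx : x ≠ 0) : sol N x ≤ -(3 * π / 4) := by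
  by_contra h
  push Not at h
  have h1 := Real.exp_lt_exp.mpr h
  rw [exp_sol N hx] at h1
  have h2 := dens_le N x
  have h3 : Real.exp (-3) ≤ Real.exp (-(3 * π / 4)) := Real.exp_le_exp.mpr (by linarith [pi_lt])
  have h4 : (1:ℝ) / 64 ≤ Real.exp (-3) := by
    have h5 : Real.exp 3 ≤ 64 := by
      have h6 : Real.exp 3 = Real.exp 1 ^ 3 := by rw [← Real.exp_nat_mul]; norm_num
      rw [h6]
      have h7 := Real.exp_one_lt_d9
      have h8 : Real.exp 1 ≤ 4 := by linarith
      calc Real.exp 1 ^ 3 ≤ 4 ^ 3 := by gcongr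
        _ = 64 := by norm_num
    rw [Real.exp_neg, one_div]
    exact inv_anti₀ (Real.exp_pos 3) h5
  norm_num at h2 h4
  linarith

theorem q_sol (N : ℕ) {x : Plane} (hx : x ≠ 0) :
    Pool.Agent.H456R3.gg (Real.log (Real.exp (sol N x))) = dens N x := by
  rw [Real.log_exp, Pool.Agent.H456R3.gg_of_le (sol_le N hx), exp_sol N hx]

theorem ae_ne : ∀ᵐ x : Plane ∂volume, x ≠ 0 := by
  rw [ae_iff]; simp

theorem solution (N : ℕ) : IsNegativeSolution (N : ℝ) (fun _ => 1)
    (fun s => Pool.Agent.H456R3.gg (Real.log s)) (sol N) where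
  locInt := by
    have h1 : LocallyIntegrable (fun x : Plane => kap N - 2 * LF (hf N) x) volume :=
      (continuous_const.sub (continuous_const.mul
        (Pool.Agent.H456R3.contDiff_h (contDiff_hf N)).continuous)).locallyIntegrable
    have h2 : LocallyIntegrable (fun x : Plane => (2 * (N : ℝ)) • Real.log ‖x‖) volume :=
      Pool.Agent.H456R3.locallyIntegrable_log.smul (2 * (N : ℝ))
    have h3 := h1.add h2
    have e : sol N = (fun x : Plane => kap N - 2 * LF (hf N) x) +
        fun x : Plane => (2 * (N : ℝ)) • Real.log ‖x‖ := by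
      funext x
      simp only [sol, Pi.add_apply, smul_eq_mul]
      ring
    rw [e]
    exact h3
  smooth := by
    have h1 : ContDiff ℝ ∞ (LF (hf N)) := Pool.Agent.H456R3.contDiff_h (contDiff_hf N)
    intro x hx
    have hx' : x ≠ 0 := hx
    have h2 : ContDiffAt ℝ ∞ (fun x : Plane => Real.log ‖x‖) x :=
      (contDiffAt_norm ℝ hx').log (norm_ne_zero_iff.mpr hx')
    exact ((contDiffAt_const.add (contDiffAt_const.mul h2)).sub
      (contDiffAt_const.mul h1.contDiffAt)).contDiffWithinAt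
  neg := fun x hx => by
    have := sol_le N hx
    linarith [Real.pi_pos]
  locInt_term := by
    have h1 := (continuous_dens N).locallyIntegrable (μ := (volume : Measure Plane))
    apply LocallyIntegrable.congr h1
    filter_upwards [ae_ne] with x hx
    rw [q_sol N hx, one_mul]
  eqn := by
    intro φ hφ hc
    have hL : ContDiff ℝ ∞ (LF (hf N)) := Pool.Agent.H456R3.contDiff_h (contDiff_hf N)
    have hlc := (Pool.Agent.H456R3.contDiff_lap hφ).continuous
    have hls := Pool.Agent.H456R3.compact_lap hc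
    have e1 : ∫ x : Plane, (1:ℝ) * Pool.Agent.H456R3.gg (Real.log (Real.exp (sol N x))) * φ x =
        ∫ x, dens N x * φ x := by
      apply integral_congr_ae
      filter_upwards [ae_ne] with x hx
      rw [q_sol N hx, one_mul]
    have e2 : ∫ x, sol N x * lap φ x = 2 * (N : ℝ) * (2 * π * φ 0) -
        2 * ∫ x, LF (hf N) x * lap φ x := by
      have i1 : Integrable (fun x : Plane => kap N * lap φ x) volume :=
        Pool.Agent.H456R3.integrable_mul_left continuous_const hlc hls
      have i2 : Integrable (fun x : Plane => Real.log ‖x‖ * lap φ x) volume := by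
        have := Pool.Agent.H456R3.locallyIntegrable_log.integrable_smul_right_of_hasCompactSupport hlc hls
        exact this
      have i3 : Integrable (fun x : Plane => LF (hf N) x * lap φ x) volume :=
        Pool.Agent.H456R3.integrable_mul_left hL.continuous hlc hls
      have e3 : ∀ x, sol N x * lap φ x = (kap N * lap φ x + 2 * (N : ℝ) * (Real.log ‖x‖ * lap φ x)) -
          2 * (LF (hf N) x * lap φ x) := by
        intro x
        unfold sol
        ring
      simp only [e3]
      have s1 : ∫ x : Plane, (kap N * lap φ x + 2 * (N : ℝ) * (Real.log ‖x‖ * lap φ x)) -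
          2 * (LF (hf N) x * lap φ x) = (∫ x : Plane, (kap N * lap φ x +
            2 * (N : ℝ) * (Real.log ‖x‖ * lap φ x))) - ∫ x : Plane, 2 * (LF (hf N) x * lap φ x) :=
        integral_sub (i1.add (i2.const_mul (2 * (N : ℝ)))) (i3.const_mul 2)
      have s2 : ∫ x : Plane, (kap N * lap φ x + 2 * (N : ℝ) * (Real.log ‖x‖ * lap φ x)) =
          (∫ x : Plane, kap N * lap φ x) + ∫ x : Plane, 2 * (N : ℝ) * (Real.log ‖x‖ * lap φ x) :=
        integral_add i1 (i2.const_mul (2 * (N : ℝ)))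
      rw [s1, s2, integral_const_mul, integral_const_mul, integral_const_mul,
        Pool.Agent.H456R3.integral_lap hφ hc, Pool.Agent.H456R3.log_fundamental hφ hc]
      ring
    have e4 : 2 * ∫ x, LF (hf N) x * lap φ x = ∫ x, dens N x * φ x := by
      rw [Pool.Agent.H456R3.green hL hφ hc, ← integral_const_mul]
      congr 1
      funext x
      rw [Pool.Agent.H456R3.lap_LF (hasDerivAt_hf N) (contDiff_hf N) (hasDerivAt_hf' N)]
      unfold dens
      ring
    rw [e1, e2, e4]
    ring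

theorem not_radial (N : ℕ) : ¬ IsRadial (sol N) := by
  intro h
  have hl := lam_pos N
  -- the two points
  set θ : ℝ := π / ((N : ℝ) + 1) with hθ
  set x : Plane := !₂[1 / lam N, 0] with hx
  set y : Plane := !₂[1 / lam N * Real.cos θ, 1 / lam N * Real.sin θ] with hy
  have hcx : cz x = ((1 / lam N : ℝ) : ℂ) := by
    apply Complex.ext <;> simp [cz, hx]
  have hcy : cz y = ((1 / lam N : ℝ) : ℂ) * Complex.exp (θ * Complex.I) := by
    apply Complex.ext
    · rw [Complex.re_ofReal_mul, Complex.exp_ofReal_mul_I_re]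
      simp [cz, hy]
    · rw [Complex.im_ofReal_mul, Complex.exp_ofReal_mul_I_im]
      simp [cz, hy]
  have hnx : ‖x‖ = 1 / lam N := by
    rw [← Pool.Agent.H456R3.norm_cz, hcx, Complex.norm_real, Real.norm_eq_abs, abs_of_pos (by positivity)]
  have hny : ‖y‖ = 1 / lam N := by
    rw [← Pool.Agent.H456R3.norm_cz, hcy, norm_mul, Complex.norm_exp_ofReal_mul_I, Complex.norm_real,
      Real.norm_eq_abs, abs_of_pos (by positivity), mul_one]
  have hpos : 0 < 1 / lam N := by positivity
  have hx0 : x ≠ 0 := by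
    intro h0
    rw [h0, norm_zero] at hnx
    linarith
  have hy0 : y ≠ 0 := by
    intro h0
    rw [h0, norm_zero] at hny
    linarith
  have key := h x y hx0 hy0 (by rw [hnx, hny])
  unfold sol at key
  rw [hnx, hny] at key
  have hlc : (lam N : ℂ) ≠ 0 := by exact_mod_cast hl.ne'
  have v1 : hf N (cz x) = 2 := by
    unfold hf
    rw [hcx]
    push_cast
    rw [mul_one_div, div_self hlc, one_pow]
    norm_num
  have v2 : hf N (cz y) = 0 := by
    unfold hf
    rw [hcy]
    push_cast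
    rw [← mul_assoc, mul_one_div, div_self hlc, one_mul, ← Complex.exp_nat_mul]
    have : ((N + 1 : ℕ) : ℂ) * (θ * Complex.I) = π * Complex.I := by
      rw [hθ]
      push_cast
      have : (N : ℂ) + 1 ≠ 0 := by
        have : ((N : ℝ) + 1) ≠ 0 := by positivity
        exact_mod_cast this
      field_simp
    rw [this, Complex.exp_pi_mul_I]
    norm_num
  have l1 : LF (hf N) x = Real.log 5 := by
    unfold LF
    rw [v1]
    congr 1
    simp
    norm_num
  have l2 : LF (hf N) y = 0 := by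
    unfold LF
    rw [v2]
    simp
  rw [l1, l2] at key
  have : 0 < Real.log 5 := Real.log_pos (by norm_num)
  linarith

/-- **Main theorem.** With `p` constant equal to `1` there is `q` such that (H1)-(H8) hold and for
every natural number `N` the equation `Δu + p(|x|) q(e^u) = 4πN δ` has a negative solution that is
not radially symmetric about the origin. -/
theorem result : ∃ q : ℝ → ℝ, Hyp (fOf fun _ => 1) (gOf q) ∧
    ∀ N : ℕ, ∃ u : Plane → ℝ, IsNegativeSolution (N : ℝ) (fun _ => 1) q u ∧ ¬ IsRadial u := by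
  refine ⟨fun s => Pool.Agent.H456R3.gg (Real.log s), ?_, fun N =>
    ⟨sol N, solution N, not_radial N⟩⟩
  rw [fOf_one, gOf_eq]
  exact hyp

end Pool.Agent.Results.MP_ad2fa1_an.NonradialAllN
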